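import Pool.Agent.Helper68.ES.Defs
import Pool.Agent.Helper61.EP.StC

/-!
# Project ES (MP_cb927e_an), part I: definitions (non critical levels)
-/

set_option autoImplicit false

open MeasureTheory Set Filter Topology
open scoped ENNReal RealInnerProductSpace

namespace Pool.Agent.Helper61.ES

open Pool.Agent.Helper68.LM (Pl BB Bd Av HL ft fm DQ)
open Pool.Agent.Helper20.RG
open Pool.Agent.Helper20.RL
open Pool.Agent.Helper68.EP (Fb DQ3)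
open Pool.Agent.Helper61.EP (Nn D8 trS)
open Pool.Agent.Helper68.ES (Crit th Eg ag)

/-- the exponents above the critical persistence: `g` is slightly larger than `p - 1` -/
def Ex3 (p s g : ℝ) : Prop :=
  1 < s ∧ s < p ∧ p < 2 ∧ 0 < g ∧ 2 + g - 3 * g / (2 * p) - s / 2 < p

/-- the density of `F` is at most `8·2^(-su)` in all squares of half side `2^k'`, `k' ≥ -7·2^(q-3)` (`k' ≥ 0` if `q < 3`) -/
def Dcl (s : ℝ) (u q : ℕ) (F : Set Pl) : Prop :=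
  ∀ (y : Pl) (k' : ℤ), (if 3 ≤ q then -(7 * 2 ^ (q - 3)) else 0) ≤ k' →
    volume (F ∩ Sq y ((2 : ℝ) ^ k')) ≤ ENNReal.ofReal (D8 s u * (4 : ℝ) ^ k')

/-- the window `l` of the age level `q`; it contains `Eg E D q k` for all `k ∈ [l 2^(q-3), (l+1) 2^(q-3))` -/
def Wn (E : Set Pl) (D : ℝ) (q : ℕ) (l : ℤ) : Set Pl :=
  if 3 ≤ q then Fb E D ((l - 7) * 2 ^ (q - 3)) \ Fb E D ((l - 16) * 2 ^ (q - 3))
  else Fb E D l \ Fb E D (l - 8)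

/-- the chords of a class which hit the persistence class `τ` of `F` at scale `k`, threshold `th i` -/
def Hu (sl : ℕ → ℝ) (c : ℕ → Pl) (m : ℕ → ℕ) (u i τ k : ℕ) (F : Set Pl) (x : Pl) : Set ℕ :=
  {j : ℕ | j < 2 ^ u ∧ Hit (sl j) (c j) (m j) u k (CU F (sl j) (m j) u (th i) τ k) x}

/-- NC3, the critical persistence (helper85).  To be used in `StNCT`. -/
def StNC3 : Prop :=
  ∀ p e : ℝ, 1 < p → p < 2 → p ^ 2 + p = 3 → 0 < e → ∃ d₀ : ℝ, 0 < d₀ ∧ ∀ d : ℝ, 0 < d → d ≤ d₀ →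
    ∃ s₀ : ℝ, s₀ < p ∧ ∀ s A Cf : ℝ, s₀ < s → 1 < s → s < p → 0 ≤ A → 1 ≤ Cf →
    ∃ (u₀ : ℕ) (δ C ε' : ℝ), 0 < δ ∧ 0 < C ∧ 0 < ε' ∧
    ∀ (u q i b l : ℕ) (sl : ℕ → ℝ) (c : ℕ → Pl) (m : ℕ → ℕ) (F : Set Pl) (m₁ : ℝ), u₀ ≤ u →
      Slo u A p sl → (∀ j < 2 ^ u, ‖c j‖ ≤ Cf ∧ u ≤ m j + 1) → q ≤ 2 * u → i ≤ 2 * u → ¬ Crit p e u q i →
      (p - 1 - e) * u < q → BM F → Dcl s u q F → (2 : ℝ) ^ ((i : ℝ) - δ * u) ≤ m₁ → m₁ ≤ (2 : ℝ) ^ u →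
      (p - 1 - d) * u < b → (b : ℝ) ≤ (p - 1 + d) * u → l < 16 * u →
      ∑ k ∈ Finset.range (2 ^ (q - 3)), volume {x | m₁ ≤ ((Hu sl c m u i (16 * u * b + l + 1) k F x).ncard : ℝ)} ≤
        ENNReal.ofReal (C * (2 : ℝ) ^ ((p - ε') * u)) * volume F

end Pool.Agent.Helper61.ES
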